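import Pool.Agent.H45.Lib.Ts3997aac3.Q276.PL.Stm2
import Pool.Agent.H45.Lib.S8.H38R2.CG.N0
import Pool.Agent.H45.Lib.S8.H38R2.CG.N0d
import Pool.Agent.H45.Lib.Ts3997aac3.H140.LD.Real

set_option autoImplicit false

namespace Pool.Agent.Q210.PL

open Finset Filter NumberField Pool.Agent.H38R2.CG Pool.Agent.Q276.PL
open scoped Classical

namespace REG

theorem isFund_dsc {d : ℕ} (h1 : 1 < d) (hs : Squarefree d) : IsFund (dsc d) := by
  have h4 : d % 4 ≠ 0 := by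
    intro h
    have h5 : 2 * 2 ∣ d := by omega
    have h6 := hs 2 h5
    rw [Nat.isUnit_iff] at h6
    omega
  unfold dsc
  split_ifs with h
  · exact ⟨h1, Or.inl ⟨h, hs⟩⟩
  · refine ⟨by omega, Or.inr ⟨d, rfl, by omega, hs⟩⟩

theorem discr_dsc (K : Type) [Field K] [NumberField K] (d : ℕ) (h1 : 1 < d) (hs : Squarefree d)
    (h2 : Module.finrank ℚ K = 2) (hy : ∃ x : K, x ^ 2 = (d : K)) :
    NumberField.discr K = (dsc d : ℤ) := by
  rw [T_N0d K d h1 hs h2 hy]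
  unfold dsc
  split_ifs <;> push_cast <;> rfl

variable {K : Type} [Field K] [NumberField K]

theorem abs_one (σ : K →+* ℝ) (u : (𝓞 K)ˣ) (h5 : |σ ((u : (𝓞 K)ˣ) : K)| = 1) :
    u = 1 ∨ u = -1 := by
  rcases (abs_eq zero_le_one).1 h5 with h6 | h6
  · left
    rw [← map_one σ] at h6
    have h7 := σ.injective h6
    ext
    simpa using h7
  · right
    have h8 : σ ((u : (𝓞 K)ˣ) : K) = σ (-1) := by rw [h6]; simp
    have h7 := σ.injective h8
    ext
    simpa using h7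

theorem tors (σ : K →+* ℝ) (u : (𝓞 K)ˣ) (hu : u ∈ Units.torsion K) : u = 1 ∨ u = -1 := by
  have hu : IsOfFinOrder u := (CommGroup.mem_torsion _).1 hu
  rw [isOfFinOrder_iff_pow_eq_one] at hu
  obtain ⟨k, hk, hu⟩ := hu
  refine abs_one σ u ?_
  have h3 : (σ ((u : (𝓞 K)ˣ) : K)) ^ k = 1 := by
    rw [← map_pow]
    have h4 : (((u : (𝓞 K)ˣ) : K)) ^ k = 1 := by
      have := congrArg (fun v : (𝓞 K)ˣ => ((v : 𝓞 K) : K)) hu
      simpa using this
    rw [h4, map_one]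
  rw [← pow_eq_one_iff_of_nonneg (abs_nonneg _) hk.ne', ← abs_pow, h3, _root_.abs_one]

/-- `ε` and `-1` generate the units -/
def Gen (ε : (𝓞 K)ˣ) : Prop := ∀ u : (𝓞 K)ˣ, ∃ n : ℤ, u = ε ^ n ∨ u = -ε ^ n

theorem Gen.inv {ε : (𝓞 K)ˣ} (h : Gen ε) : Gen ε⁻¹ := by
  intro u
  obtain ⟨n, h⟩ := h u
  refine ⟨-n, ?_⟩
  rwa [inv_zpow, zpow_neg, inv_inv]

theorem Gen.neg {ε : (𝓞 K)ˣ} (h : Gen ε) : Gen (-ε) := by
  intro u
  obtain ⟨n, h⟩ := h u
  refine ⟨n, ?_⟩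
  rcases Int.even_or_odd n with hn | hn
  · rwa [hn.neg_zpow]
  · rw [hn.neg_zpow, neg_neg]
    exact h.symm

/-- existence of a fundamental unit -/
theorem exists_fund (σ : K →+* ℝ) (hr : Units.rank K = 1) :
    ∃ ε : (𝓞 K)ˣ, 1 < σ ((ε : 𝓞 K) : K) ∧ Gen ε := by
  set i0 : Fin (Units.rank K) := ⟨0, by omega⟩ with hi0
  have huni : ∀ i : Fin (Units.rank K), i = i0 := by
    intro i
    apply Fin.ext
    have := i.2
    show (i : ℕ) = 0
    omega
  set η : (𝓞 K)ˣ := Units.fundSystem K i0 with hη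
  have hprod : ∀ f : Fin (Units.rank K) → ℤ,
      ∏ i, (Units.fundSystem K i) ^ (f i) = η ^ (f i0) := by
    intro f
    rw [Finset.prod_eq_single i0]
    · intro b _ hb; exact absurd (huni b) hb
    · intro h; exact absurd (Finset.mem_univ _) h
  have hgen : Gen η := by
    intro u
    obtain ⟨⟨ζ, f⟩, h, -⟩ := Units.exist_unique_eq_mul_prod K u
    simp only at h
    rw [hprod] at h
    refine ⟨f i0, ?_⟩
    rcases tors σ ζ ζ.2 with h1 | h1
    · left; rw [h, h1, one_mul]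
    · right; rw [h, h1, neg_one_mul]
  have hne : |σ ((η : 𝓞 K) : K)| ≠ 1 := by
    intro h
    have h1 := abs_one σ η h
    have hmem : η ∈ Units.torsion K := by
      rcases h1 with h1 | h1
      · rw [h1]; exact one_mem _
      · rw [h1]
        refine (CommGroup.mem_torsion _).2 ?_
        rw [isOfFinOrder_iff_pow_eq_one]
        exact ⟨2, by norm_num, by norm_num⟩
    obtain ⟨p, -, huq⟩ := Units.exist_unique_eq_mul_prod K (1 : (𝓞 K)ˣ)
    have e1 := huq (1, fun _ => 0) (by simp)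
    have e2 := huq ((⟨η, hmem⟩ : Units.torsion K)⁻¹, fun _ => 1) (by
      simp only
      rw [hprod]
      simp)
    have e3 := congrArg (fun q : Units.torsion K × (Fin (Units.rank K) → ℤ) => q.2 i0)
      (e1.trans e2.symm)
    simp at e3
  have hη0 : σ ((η : 𝓞 K) : K) ≠ 0 := by
    rw [map_ne_zero]
    exact Units.coe_ne_zero η
  have hinv : ∀ u : (𝓞 K)ˣ, σ (((u⁻¹ : (𝓞 K)ˣ) : 𝓞 K) : K) = (σ ((u : 𝓞 K) : K))⁻¹ := by
    intro u
    rw [← map_inv₀]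
    congr 1
    have : ((u : 𝓞 K) : K) * (((u⁻¹ : (𝓞 K)ˣ) : 𝓞 K) : K) = 1 := by
      have h := congrArg (fun v : (𝓞 K)ˣ => ((v : 𝓞 K) : K)) (mul_inv_cancel u)
      simpa using h
    exact (eq_inv_of_mul_eq_one_right this)
  have hneg : ∀ u : (𝓞 K)ˣ, σ (((-u : (𝓞 K)ˣ) : 𝓞 K) : K) = -σ ((u : 𝓞 K) : K) := by
    intro u
    rw [Units.val_neg, ← map_neg]
    rfl
  -- choose the sign
  have key : ∀ u : (𝓞 K)ˣ, Gen u → 1 < |σ ((u : 𝓞 K) : K)| →
      ∃ ε : (𝓞 K)ˣ, 1 < σ ((ε : 𝓞 K) : K) ∧ Gen ε := by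
    intro u hu h
    rcases lt_abs.1 h with h1 | h1
    · exact ⟨u, h1, hu⟩
    · exact ⟨-u, by rw [hneg]; exact h1, hu.neg⟩
  rcases lt_or_gt_of_ne hne with h | h
  · refine key η⁻¹ hgen.inv ?_
    rw [hinv, abs_inv]
    exact (one_lt_inv₀ (abs_pos.2 hη0)).2 h
  · exact key η hgen h

end REG

theorem reg : StmtREG := by
  intro K _ _ d h1 hs h2 hy
  have hF := REG.isFund_dsc h1 hs
  have hdisc := REG.discr_dsc K d h1 hs h2 hy
  obtain ⟨e⟩ := T_N0 K (dsc d) hF h2 hdisc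
  obtain ⟨y, hy'⟩ := hy
  have hd1 : (d : ℤ) ≠ 1 := by omega
  have hsf : Squarefree (d : ℤ) := Int.squarefree_natCast.2 hs
  have hsig := Pool.Agent.H140.LD.signature_real h2 hd1 hsf y hy'
  have hcard : Fintype.card (InfinitePlace K) = 2 := by
    rw [InfinitePlace.card_eq_nrRealPlaces_add_nrComplexPlaces, hsig.1, hsig.2]
  have hrank : Units.rank K = 1 := by rw [Units.rank, hcard]
  obtain ⟨ε, hε, hgen⟩ := REG.exists_fund e.σ hrank
  obtain ⟨t, u, -, hσ, hτ⟩ := e.int1 (ε : 𝓞 K)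
  have hreg := Pool.Agent.H140.LD.regulator_real h2 hd1 hsf y hy' e.σ ε hε hgen
  have hnorm : |e.σ ((ε : 𝓞 K) : K) * e.τ ((ε : 𝓞 K) : K)| = 1 := by
    rw [← e.nrm]
    have h5 : |(RingOfIntegers.norm ℚ (ε : 𝓞 K) : ℚ)| = 1 :=
      NumberField.isUnit_iff_norm.1 ε.isUnit
    rw [RingOfIntegers.coe_norm] at h5
    rw [← Rat.cast_abs, h5, Rat.cast_one]
  set S : ℝ := e.σ ((ε : 𝓞 K) : K) with hS
  set R : ℝ := e.τ ((ε : 𝓞 K) : K) with hR
  have hRlt : |R| < 1 := by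
    rw [abs_mul, abs_of_pos (by linarith : 0 < S)] at hnorm
    by_contra hc
    push Not at hc
    nlinarith
  have hD0 : (0 : ℝ) < (dsc d : ℝ) := by
    have : 0 < dsc d := by have := hF.1; omega
    exact_mod_cast this
  have hsq : 0 < √(dsc d : ℝ) := Real.sqrt_pos.2 hD0
  have hsq2 : √(dsc d : ℝ) * √(dsc d : ℝ) = (dsc d : ℝ) := Real.mul_self_sqrt hD0.le
  have hRb := abs_lt.1 hRlt
  have ht : (0 : ℝ) < t := by linarith
  have hu : (0 : ℝ) < u := by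
    have h6 : 0 < (u : ℝ) * √(dsc d : ℝ) := by linarith
    exact (pos_iff_pos_of_mul_pos h6).2 hsq
  have ht' : 0 < t := by exact_mod_cast ht
  have hu' : 0 < u := by exact_mod_cast hu
  have hprod : 4 * (S * R) = (t : ℝ) ^ 2 - (dsc d : ℝ) * (u : ℝ) ^ 2 := by
    rw [hσ, hτ]
    linear_combination (-(u : ℝ) ^ 2) * hsq2
  refine ⟨t.toNat, u.toNat, by omega, by omega, ?_, ?_⟩
  · have e1 : ((t.toNat : ℕ) : ℤ) = t := Int.toNat_of_nonneg ht'.le
    have e2 : ((u.toNat : ℕ) : ℤ) = u := Int.toNat_of_nonneg hu'.le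
    rw [e1, e2]
    rcases (abs_eq zero_le_one).1 hnorm with h6 | h6
    · left
      rw [h6] at hprod
      have h7 : ((t ^ 2 - (dsc d : ℤ) * u ^ 2 : ℤ) : ℝ) = ((4 : ℤ) : ℝ) := by
        push_cast
        linarith
      exact_mod_cast h7
    · right
      rw [h6] at hprod
      have h7 : ((t ^ 2 - (dsc d : ℤ) * u ^ 2 : ℤ) : ℝ) = ((-4 : ℤ) : ℝ) := by
        push_cast
        linarith
      exact_mod_cast h7
  · have e1 : ((t.toNat : ℕ) : ℝ) = (t : ℝ) := by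
      have : ((t.toNat : ℤ) : ℝ) = (t : ℝ) := by rw [Int.toNat_of_nonneg ht'.le]
      exact_mod_cast this
    have e2 : ((u.toNat : ℕ) : ℝ) = (u : ℝ) := by
      have : ((u.toNat : ℤ) : ℝ) = (u : ℝ) := by rw [Int.toNat_of_nonneg hu'.le]
      exact_mod_cast this
    rw [hreg, e1, e2, ← hσ]

end Pool.Agent.Q210.PL
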