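import Pool.Agent.H45.Lib.Ts3997aac3.Q276.PL.Stm

set_option autoImplicit false

namespace Pool.Agent.Q210.PL

open Polynomial Pool.Agent.W223.HZ Pool.Agent.W223.PL Pool.Agent.Q276.PL

namespace B1

theorem sum_divisors_card_le (n : ℕ) :
    (∑ a ∈ Finset.Icc 1 n, (a.divisors.card : ℝ)) ≤ n * (1 + Real.log n) := by
  have h := ArithmeticFunction.sum_Ioc_sigma0_eq_sum_div n
  have h1 : ∑ a ∈ Finset.Icc 1 n, a.divisors.card = ∑ a ∈ Finset.Ioc 0 n, (n / a) := by
    rw [← h]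
    apply Finset.sum_congr
    · ext x; simp [Finset.mem_Icc, Finset.mem_Ioc]; omega
    · intro x _
      rw [ArithmeticFunction.sigma_zero_apply]
  have h2 : (∑ a ∈ Finset.Icc 1 n, (a.divisors.card : ℝ)) =
      ((∑ a ∈ Finset.Ioc 0 n, (n / a) : ℕ) : ℝ) := by
    rw [← h1]; push_cast; rfl
  rw [h2]
  push_cast
  calc ∑ a ∈ Finset.Ioc 0 n, ((n / a : ℕ) : ℝ) ≤ ∑ a ∈ Finset.Ioc 0 n, (n : ℝ) * ((a : ℝ))⁻¹ := by
        apply Finset.sum_le_sum
        intro a _
        rw [← div_eq_mul_inv]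
        exact Nat.cast_div_le
    _ = n * (harmonic n : ℝ) := by
        rw [← Finset.mul_sum, harmonic_eq_sum_Icc]
        push_cast
        congr 1
    _ ≤ n * (1 + Real.log n) := by
        apply mul_le_mul_of_nonneg_left (harmonic_le_one_add_log n) (by positivity)

theorem two_pow_le (n : ℕ) (hn : n ≠ 0) : 2 ^ n.primeFactors.card ≤ n.divisors.card := by
  rw [Nat.card_divisors hn]
  refine Finset.pow_card_le_prod _ _ _ fun p hp => ?_
  have hp' := Nat.mem_primeFactors.1 hp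
  have h := (hp'.1.dvd_iff_one_le_factorization hn).1 hp'.2.1
  omega

end B1

theorem b1 : StmtB1 := by
  intro K Y hY
  set N : ℕ := ⌊Y⌋₊ with hN
  have hNY : (N : ℝ) ≤ Y := Nat.floor_le (by linarith)
  have hN1 : 1 ≤ N := Nat.le_floor (by exact_mod_cast hY)
  set F : Finset ℕ := (Finset.Icc 1 N).filter fun n => K ≤ n.primeFactors.card with hF
  have hsub : {d : ℤ | 1 ≤ d ∧ (d : ℝ) ≤ Y ∧ Squarefree d ∧ K ≤ d.natAbs.primeFactors.card} ⊆
      ((F.image fun n : ℕ => (n : ℤ) : Finset ℤ) : Set ℤ) := by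
    rintro d ⟨h1, h2, -, h4⟩
    rw [Finset.coe_image]
    refine ⟨d.natAbs, ?_, Int.natAbs_of_nonneg (by omega)⟩
    rw [Finset.mem_coe, hF, Finset.mem_filter, Finset.mem_Icc]
    refine ⟨⟨by omega, Nat.le_floor ?_⟩, h4⟩
    have : ((d.natAbs : ℕ) : ℝ) = (d : ℝ) := by
      rw [Nat.cast_natAbs, abs_of_nonneg (by omega)]
    rw [this]
    exact h2
  have hcard : ({d : ℤ | 1 ≤ d ∧ (d : ℝ) ≤ Y ∧ Squarefree d ∧
      K ≤ d.natAbs.primeFactors.card}.ncard) ≤ F.card := by
    refine (Set.ncard_le_ncard hsub (Finset.finite_toSet _)).trans ?_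
    rw [Set.ncard_coe_finset]
    exact Finset.card_image_le
  rw [le_div_iff₀ (by positivity)]
  have h1 : (F.card : ℝ) * 2 ^ K ≤ ∑ n ∈ Finset.Icc 1 N, (n.divisors.card : ℝ) := by
    calc (F.card : ℝ) * 2 ^ K = ∑ _n ∈ F, (2 : ℝ) ^ K := by
          rw [Finset.sum_const, nsmul_eq_mul]
      _ ≤ ∑ n ∈ F, (n.divisors.card : ℝ) := by
          refine Finset.sum_le_sum fun n hn => ?_
          rw [hF, Finset.mem_filter, Finset.mem_Icc] at hn
          have h2 := B1.two_pow_le n (by omega)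
          have h3 : (2 : ℕ) ^ K ≤ n.divisors.card :=
            (Nat.pow_le_pow_right (by norm_num) hn.2).trans h2
          exact_mod_cast h3
      _ ≤ ∑ n ∈ Finset.Icc 1 N, (n.divisors.card : ℝ) :=
          Finset.sum_le_sum_of_subset_of_nonneg (Finset.filter_subset _ _)
            fun _ _ _ => Nat.cast_nonneg _
  have h2 := B1.sum_divisors_card_le N
  have h3 : (N : ℝ) * (1 + Real.log N) ≤ Y * (1 + Real.log Y) := by
    have hN0 : (1 : ℝ) ≤ N := by exact_mod_cast hN1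
    have h4 : Real.log N ≤ Real.log Y := Real.log_le_log (by linarith) hNY
    have h5 : 0 ≤ Real.log N := Real.log_nonneg hN0
    exact mul_le_mul hNY (by linarith) (by linarith) (by linarith)
  have h4 : ({d : ℤ | 1 ≤ d ∧ (d : ℝ) ≤ Y ∧ Squarefree d ∧
      K ≤ d.natAbs.primeFactors.card}.ncard : ℝ) * 2 ^ K ≤ F.card * 2 ^ K := by
    refine mul_le_mul_of_nonneg_right ?_ (by positivity)
    exact_mod_cast hcard
  linarith

end Pool.Agent.Q210.PL
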