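import Pool.Agent.H45.Lib.Ts3997aac3.Q276.PL.Stm

set_option autoImplicit false

namespace Pool.Agent.Q210.PL

open Polynomial Pool.Agent.W223.HZ Pool.Agent.W223.PL Pool.Agent.Q276.PL

namespace B2

/-- multiples of `p` in an interval -/
theorem mult (a L : ℝ) (hL : 0 ≤ L) (p : ℕ) (hp : 0 < p) :
    {d : ℤ | a ≤ d ∧ (d : ℝ) ≤ a + L ∧ (p : ℤ) ∣ d}.Finite ∧
    ({d : ℤ | a ≤ d ∧ (d : ℝ) ≤ a + L ∧ (p : ℤ) ∣ d}.ncard : ℝ) ≤ L / p + 1 := by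
  have hp' : (0 : ℝ) < p := by exact_mod_cast hp
  have hsub : {d : ℤ | a ≤ d ∧ (d : ℝ) ≤ a + L ∧ (p : ℤ) ∣ d} ⊆
      (((Finset.Icc ⌈a / p⌉ ⌊(a + L) / p⌋).image fun k : ℤ => (p : ℤ) * k : Finset ℤ) : Set ℤ) := by
    rintro d ⟨h1, h2, k, rfl⟩
    rw [Finset.coe_image]
    refine ⟨k, ?_, rfl⟩
    push_cast at h1 h2
    rw [Finset.mem_coe, Finset.mem_Icc]
    constructor
    · rw [Int.ceil_le, div_le_iff₀ hp']
      linarith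
    · rw [Int.le_floor, le_div_iff₀ hp']
      linarith
  refine ⟨(Finset.finite_toSet _).subset hsub, ?_⟩
  have h1 := Set.ncard_le_ncard hsub (Finset.finite_toSet _)
  rw [Set.ncard_coe_finset] at h1
  have h2 := h1.trans Finset.card_image_le
  rw [Int.card_Icc] at h2
  have h3 : (({d : ℤ | a ≤ d ∧ (d : ℝ) ≤ a + L ∧ (p : ℤ) ∣ d}.ncard : ℕ) : ℝ) ≤
      (((⌊(a + L) / p⌋ + 1 - ⌈a / p⌉).toNat : ℕ) : ℝ) := by exact_mod_cast h2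
  refine h3.trans ?_
  have h4 : (((⌊(a + L) / p⌋ + 1 - ⌈a / p⌉).toNat : ℕ) : ℝ) =
      ((max (⌊(a + L) / p⌋ + 1 - ⌈a / p⌉) 0 : ℤ) : ℝ) := by
    rw [← Int.toNat_eq_max]
    norm_cast
  rw [h4]
  push_cast
  refine max_le ?_ (by positivity)
  have h5 : (⌊(a + L) / p⌋ : ℝ) ≤ (a + L) / p := Int.floor_le _
  have h6 : a / p ≤ (⌈a / p⌉ : ℝ) := Int.le_ceil _
  have h7 : (a + L) / p = a / p + L / p := add_div _ _ _
  linarith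

end B2

theorem b2 : StmtB2 := by
  intro M a L P₀ hM hL hP₀
  set F : Finset ℕ := M.natAbs.primeFactors.filter fun p => P₀ < (p : ℝ) with hF
  have hM0 : M.natAbs ≠ 0 := by omega
  have hset : {d : ℤ | a ≤ d ∧ (d : ℝ) ≤ a + L ∧ ∃ p : ℕ, p.Prime ∧ P₀ < p ∧ (p : ℤ) ∣ M ∧
      (p : ℤ) ∣ d} = ⋃ p ∈ F, {d : ℤ | a ≤ d ∧ (d : ℝ) ≤ a + L ∧ (p : ℤ) ∣ d} := by
    ext d
    simp only [Set.mem_iUnion, Set.mem_ofPred_eq, exists_prop, hF, Finset.mem_filter,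
      Nat.mem_primeFactors]
    constructor
    · rintro ⟨h1, h2, p, hp, hp0, hpM, hpd⟩
      exact ⟨p, ⟨⟨hp, Int.natCast_dvd.1 hpM, hM0⟩, hp0⟩, h1, h2, hpd⟩
    · rintro ⟨p, ⟨⟨hp, hpM, -⟩, hp0⟩, h1, h2, hpd⟩
      exact ⟨h1, h2, p, hp, hp0, Int.natCast_dvd.2 hpM, hpd⟩
  have hpos : ∀ p ∈ F, 0 < p := by
    intro p hp
    rw [hF, Finset.mem_filter, Nat.mem_primeFactors] at hp
    exact hp.1.1.pos
  have h1 : ({d : ℤ | a ≤ d ∧ (d : ℝ) ≤ a + L ∧ ∃ p : ℕ, p.Prime ∧ P₀ < p ∧ (p : ℤ) ∣ M ∧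
      (p : ℤ) ∣ d}.ncard : ℝ) ≤ ∑ p ∈ F,
        ({d : ℤ | a ≤ d ∧ (d : ℝ) ≤ a + L ∧ (p : ℤ) ∣ d}.ncard : ℝ) := by
    rw [hset]
    have h2 := Finset.set_ncard_biUnion_le F
      (fun p : ℕ => {d : ℤ | a ≤ d ∧ (d : ℝ) ≤ a + L ∧ (p : ℤ) ∣ d})
    exact_mod_cast h2
  refine h1.trans ?_
  have h2 : ∀ p ∈ F, ({d : ℤ | a ≤ d ∧ (d : ℝ) ≤ a + L ∧ (p : ℤ) ∣ d}.ncard : ℝ) ≤
      L / P₀ + 1 := by
    intro p hp
    refine (B2.mult a L hL p (hpos p hp)).2.trans ?_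
    rw [hF, Finset.mem_filter] at hp
    have h3 : L / (p : ℝ) ≤ L / P₀ := div_le_div_of_nonneg_left hL (by linarith) hp.2.le
    linarith
  refine (Finset.sum_le_sum h2).trans ?_
  rw [Finset.sum_const, nsmul_eq_mul]
  refine mul_le_mul_of_nonneg_right ?_ (by positivity)
  have hlog2 : 0 < Real.log 2 := Real.log_pos (by norm_num)
  rw [le_div_iff₀ hlog2]
  have h3 : 2 ^ F.card ≤ M.natAbs := by
    calc 2 ^ F.card ≤ 2 ^ M.natAbs.primeFactors.card :=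
          Nat.pow_le_pow_right (by norm_num) (Finset.card_le_card (Finset.filter_subset _ _))
      _ ≤ ∏ p ∈ M.natAbs.primeFactors, p :=
          Finset.pow_card_le_prod _ _ _ fun p hp => (Nat.prime_of_mem_primeFactors hp).two_le
      _ ≤ M.natAbs := Nat.le_of_dvd (by omega) (Nat.prod_primeFactors_dvd _)
  have h4 : (2 : ℝ) ^ F.card ≤ |(M : ℝ)| := by
    have h5 : ((M.natAbs : ℕ) : ℝ) = |(M : ℝ)| := by
      rw [Nat.cast_natAbs, Int.cast_abs]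
    rw [← h5]
    exact_mod_cast h3
  have h5 := Real.log_le_log (by positivity) h4
  rwa [Real.log_pow] at h5

end Pool.Agent.Q210.PL
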