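import Pool.Agent.H45.Lib.Ts3997aac3.Q276.PL.Stm2
import Pool.Agent.H45.Lib.S8.H38R2.CG.N0
import Pool.Agent.H45.Lib.S8.H38R2.CG.N0d
import Pool.Agent.H45.Lib.S8.H38R2.CG.N2
import Pool.Agent.H45.Lib.S8.H38R2.CG.N3
import Pool.Agent.H45.Lib.S8.H38R2.CG.N3a
import Pool.Agent.H45.Lib.S8.H38R2.CG.N3b
import Pool.Agent.H45.Lib.S8.H38R2.CG.SPL
import Pool.Agent.H45.Lib.S8.H38R2.CG.KR
import Pool.Agent.H45.Lib.S8.H38R2.CG.PV
import Pool.Agent.H45.Lib.Ts3997aac3.H140.LD.Real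

set_option autoImplicit false

namespace Pool.Agent.Q210.PL

open Finset Filter NumberField Pool.Agent.H38R2.CG Pool.Agent.Q276.PL
open scoped Classical

namespace CNF

theorem isFund_dsc {d : ℕ} (h1 : 1 < d) (hs : Squarefree d) : IsFund (dsc d) := by
  have h4 : d % 4 ≠ 0 := by
    intro h
    have h5 : 2 * 2 ∣ d := by omega
    have h6 := hs 2 h5
    rw [Nat.isUnit_iff] at h6
    omega
  unfold dsc
  split_ifs with h
  · exact ⟨h1, Or.inl ⟨h, hs⟩⟩
  · refine ⟨by omega, Or.inr ⟨d, rfl, by omega, hs⟩⟩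

theorem discr_dsc (K : Type) [Field K] [NumberField K] (d : ℕ) (h1 : 1 < d) (hs : Squarefree d)
    (h2 : Module.finrank ℚ K = 2) (hy : ∃ x : K, x ^ 2 = (d : K)) :
    NumberField.discr K = (dsc d : ℤ) := by
  rw [T_N0d K d h1 hs h2 hy]
  unfold dsc
  split_ifs <;> push_cast <;> rfl

theorem hN3 : P_N3 := by
  have h0 : P_N0 := T_N0
  have h1 : P_SPL := T_SPL h0
  have h2 : P_N2 := T_N2 h1
  have h3 : P_N3a := T_N3a T_KR T_PV
  have h4 : P_N3b := T_N3b T_KR T_PV h3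
  exact T_N3 h2 h4

end CNF

theorem cnf : StmtCNF := by
  intro K _ _ d h1 hs h2 hy
  have hF := CNF.isFund_dsc h1 hs
  have hdisc := CNF.discr_dsc K d h1 hs h2 hy
  obtain ⟨e⟩ := T_N0 K (dsc d) hF h2 hdisc
  have hall := (CNF.hN3 K (dsc d) hF h2 hdisc).2.1
  have htop := N3h.lim_H K ⊤
  have htop' : Tendsto (fun N : ℕ => (Nat.card {I : nonZeroDivisors (Ideal (𝓞 K)) //
      Ideal.absNorm (I : Ideal (𝓞 K)) ≤ N} : ℝ) / N) atTop
      (nhds ((Nat.card (⊤ : Subgroup (ClassGroup (𝓞 K))) : ℝ) * N3h.kap K)) := by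
    refine htop.congr ?_
    intro N
    simp only [Subgroup.mem_top, and_true]
  have heq : Lone (dsc d) = (Nat.card (⊤ : Subgroup (ClassGroup (𝓞 K))) : ℝ) * N3h.kap K :=
    tendsto_nhds_unique hall htop'
  have hcard : (Nat.card (⊤ : Subgroup (ClassGroup (𝓞 K))) : ℝ) = (classNumber K : ℝ) := by
    rw [Subgroup.card_top, Nat.card_eq_fintype_card]
    rfl
  obtain ⟨y, hy'⟩ := hy
  have hd1 : (d : ℤ) ≠ 1 := by omega
  have hsf : Squarefree (d : ℤ) := Int.squarefree_natCast.2 hs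
  have hsig := Pool.Agent.H140.LD.signature_real h2 hd1 hsf y hy'
  have htor := Pool.Agent.H140.LD.torsion_real e.σ
  have hD : 0 < √(dsc d : ℝ) := by
    apply Real.sqrt_pos.2
    have : 0 < dsc d := by have := hF.1; omega
    exact_mod_cast this
  rw [heq, hcard]
  unfold N3h.kap
  rw [hsig.1, hsig.2, htor, hdisc]
  have habs : |(((dsc d : ℕ) : ℤ) : ℝ)| = (dsc d : ℝ) := by
    rw [Int.cast_natCast, abs_of_nonneg (Nat.cast_nonneg _)]
  rw [habs]
  field_simp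
  push_cast
  ring

end Pool.Agent.Q210.PL
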